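import Pool.Agent.T9h42.GZ.FrobC
import Pool.Agent.T9h42.GZ.Stm

/-!
# The Dennis trace at elements of finite order and the power maps

Let `f` be an integral Hochschild `1`-cocycle on a group `G` which vanishes at the pairs `(x, y)`
for which `x y` has infinite order. For a prime `q` let `f_q (x, y) = f ((x y) ^ q y⁻¹, y)` be its
pull-back along the `q`-th power map.

1. For every commutative ring `R` and every invertible matrix `A` over `R[G]` the value of `f` on
the Dennis trace of `A` is congruent modulo `q R` to the `q`-th power of the value of `f_q`.
2. If `f` vanishes unless `(x y) ^ m = 1`, then for the invertible matrices over `ℚ[G]` and `s` prime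
to `m` the cocycles `f` and `f_s` (restricted to the pairs with `(x y) ^ m = 1`) have the same values.

For the proof of the first statement the Dennis trace is written as a sum over the cyclic words
`(x_1, y_1, …, x_q, y_q)`, on which the cyclic group of order `q` acts; `f` has a potential with the
help of which its pull-back to the words is invariant. The second one follows from the first one
for infinitely many primes `q ≡ s` modulo `m` and the vanishing of the traces over `ℤ_q` at the
elements whose order is divisible by `q`.
-/

set_option autoImplicit false

namespace Pool.Agent.Results.MP_490288_al.PowersDennisTrace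

open Pool.Agent.T9h42 Pool.Agent.T9h42.GZ

theorem result :
    (∀ (R : Type) [CommRing R] (G : Type) [Group G] (q : ℕ), q.Prime →
      ∀ f : G → G → ℤ, IsCocycle f → (∀ x y, ¬ IsOfFinOrder (x * y) → f x y = 0) →
        ∀ (n : ℕ) (A : (Matrix (Fin n) (Fin n) (MonoidAlgebra R G))ˣ),
          ∃ r : R, dennis f A = dennis (pw f q) A ^ q + q * r) ∧
    (∀ (G : Type) [Group G] (m s : ℕ), 0 < m → s.Coprime m →
      ∀ f : G → G → ℤ, IsCocycle f → (∀ x y, (x * y) ^ m ≠ 1 → f x y = 0) →
        ∀ (n : ℕ) (A : (Matrix (Fin n) (Fin n) (MonoidAlgebra ℚ G))ˣ),
          dennis f A = dennis (pwr f m s) A) := by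
  constructor
  · intro R _ G _ q hq f hf hX n A
    exact prg_frob_all hq f hf (fun x y h => hX x y fun h' => h (orderOf_pos_iff.2 h'))
      A.mul_inv A.inv_mul
  · intro G _ m s hm hs f hf hX n A
    exact gal_prg hm hs f hf hX A.mul_inv A.inv_mul

end Pool.Agent.Results.MP_490288_al.PowersDennisTrace
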